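import Pool.Agent.R774.BW.Conf
import Pool.Agent.R774.BW.Leg
import Pool.Agent.R774.BW.Jac
import Pool.Agent.R774.BW.Dei

set_option autoImplicit false

namespace Pool.Agent.Results.MP_9f67e3_gt.ConformalPair

open Pool.Agent.R774.BW

/-- Let `F` and `Fh` be smooth Finsler metrics on an open set `U` of `ℝ^n` which are conformally
related, `F(x,y) = e^{σ(x)} Fh(x,y)` with `σ` differentiable, and whose mean Landsberg curvatures
both vanish (in particular if both satisfy `L ≡ 0`).  Then `F` and `Fh` have the same Berwald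
curvature, and at each point `x` with `dσ(x) ≠ 0` both are Euclidean. -/
theorem result {n : ℕ} (U : Set (Fin n → ℝ)) (F Fh : (Fin n → ℝ) → (Fin n → ℝ) → ℝ)
    (G Gh : (Fin n → ℝ) → (Fin n → ℝ) → (Fin n → ℝ)) (σ : (Fin n → ℝ) → ℝ)
    (hF : IsFinsler U F) (hFh : IsFinsler U Fh) (hG : IsSpray U F G) (hGh : IsSpray U Fh Gh)
    (hσ : ∀ x ∈ U, DifferentiableAt ℝ σ x)
    (hc : ∀ x ∈ U, ∀ y, F x y = Real.exp (σ x) * Fh x y)
    (hJ : ∀ x ∈ U, ∀ y : Fin n → ℝ, y ≠ 0 → ∀ l : Fin n, meanLandsberg F G x y l = 0)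
    (hJh : ∀ x ∈ U, ∀ y : Fin n → ℝ, y ≠ 0 → ∀ l : Fin n, meanLandsberg Fh Gh x y l = 0) :
    ∀ x ∈ U, ∀ y : Fin n → ℝ, y ≠ 0 →
      (∀ i j k l : Fin n, berwald G x y i j k l = berwald Gh x y i j k l) ∧
      (fderiv ℝ σ x ≠ 0 → ∀ i j k : Fin n,
        fderiv ℝ (fun w₂ => fderiv ℝ (fun w₁ => fderiv ℝ (fun u => F x u ^ 2) w₁
              (Pi.single j (1 : ℝ) : Fin n → ℝ)) w₂ (Pi.single i (1 : ℝ) : Fin n → ℝ)) y
            (Pi.single k (1 : ℝ) : Fin n → ℝ) = 0) :=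
  fun _ hx _ hy => main_conf t_leg t_jac t_dei hF hFh hG hGh hσ hc hJ hJh hx hy

end Pool.Agent.Results.MP_9f67e3_gt.ConformalPair
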