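import Pool.Agent.R774.BW.Few

set_option autoImplicit false

namespace Pool.Agent.Results.MP_9f67e3_gt.FewIsometries

open Pool.Agent.R774.BW

/-- Let `F` be a smooth Finsler metric on an open set `U` of `ℝ^n` with `L ≡ 0` which is compatible
with some linear connection `Γ`, of arbitrary torsion (a generalized Berwald metric).  Suppose that
at each `x` the norm `F(x,·)` has fewer than `n` linearly independent infinitesimal isometries of
its Hessian metric.  Then `F` is a Berwald metric. -/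
theorem result {n : ℕ} (U : Set (Fin n → ℝ)) (F : (Fin n → ℝ) → (Fin n → ℝ) → ℝ)
    (G : (Fin n → ℝ) → (Fin n → ℝ) → (Fin n → ℝ))
    (Γ : (Fin n → ℝ) → Fin n → Fin n → Fin n → ℝ)
    (hF : IsFinsler U F) (hG : IsSpray U F G) (hΓ : Compatible U F Γ)
    (hK : ∀ x ∈ U, ∀ K : Fin n → (Fin n → ℝ) → Fin n → ℝ, (∀ a, IsKilling F x (K a)) →
      ∃ c : Fin n → ℝ, c ≠ 0 ∧ ∀ y : Fin n → ℝ, y ≠ 0 → ∀ m : Fin n, ∑ a, c a * K a y m = 0)
    (hL : ∀ x ∈ U, ∀ y : Fin n → ℝ, y ≠ 0 → ∀ j k l : Fin n, landsberg F G x y j k l = 0) :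
    ∀ x ∈ U, ∀ y : Fin n → ℝ, y ≠ 0 → ∀ i j k l : Fin n, berwald G x y i j k l = 0 :=
  fun x hx _ hy i j k l => main_few hF hG hΓ hx (hK x hx) (hL x hx) hy i j k l

end Pool.Agent.Results.MP_9f67e3_gt.FewIsometries
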