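import Pool.Agent.R774.BW.Fins
import Pool.Agent.R774.BW.Leg
import Pool.Agent.R774.BW.Jac
import Pool.Agent.R774.BW.Dei

set_option autoImplicit false

namespace Pool.Agent.Results.MP_9f67e3_gt.SemiSymmetricConnection

open Pool.Agent.R774.BW

/-- Let `F` be a smooth Finsler metric on an open set `U` of `ℝ^n` whose mean Landsberg curvature
vanishes (in particular any `F` with `L ≡ 0`), and suppose that `F` is compatible with a
semi-symmetric linear connection: `∂F²/∂x^k = Γ^m_kl(x) y^l ∂F²/∂y^m` with torsion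
`Γ^m_kl - Γ^m_lk = η_k δ^m_l - η_l δ^m_k`, where `η` is any `1`-form.  Then `F` is a Berwald
metric, and `F(x,·)` is Euclidean at each `x` with `η(x) ≠ 0`. -/
theorem result {n : ℕ} (U : Set (Fin n → ℝ)) (F : (Fin n → ℝ) → (Fin n → ℝ) → ℝ)
    (G : (Fin n → ℝ) → (Fin n → ℝ) → (Fin n → ℝ))
    (Γ : (Fin n → ℝ) → Fin n → Fin n → Fin n → ℝ) (η : (Fin n → ℝ) → Fin n → ℝ)
    (hF : IsFinsler U F) (hG : IsSpray U F G)
    (hΓ : Compatible U F Γ) (hη : SemiSymmetric U Γ η)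
    (hJ : ∀ x ∈ U, ∀ y : Fin n → ℝ, y ≠ 0 → ∀ l : Fin n, meanLandsberg F G x y l = 0) :
    ∀ x ∈ U, ∀ y : Fin n → ℝ, y ≠ 0 →
      (∀ i j k l : Fin n, berwald G x y i j k l = 0) ∧
      (η x ≠ 0 → ∀ i j k : Fin n,
        fderiv ℝ (fun w₂ => fderiv ℝ (fun w₁ => fderiv ℝ (fun u => F x u ^ 2) w₁
              (Pi.single j (1 : ℝ) : Fin n → ℝ)) w₂ (Pi.single i (1 : ℝ) : Fin n → ℝ)) y
            (Pi.single k (1 : ℝ) : Fin n → ℝ) = 0) :=
  fun _ hx _ hy => main t_leg t_jac t_dei hF hG hΓ hη hJ hx hy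

end Pool.Agent.Results.MP_9f67e3_gt.SemiSymmetricConnection
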